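import Pool.Agent.K1H84.MW.Final

set_option autoImplicit false

/-!
# MP_112ba8_nt: lower bounds of the conjectured order for the moments of zeta in almost all short windows

Let `Bad k c V T` be the set of the heights `t ∈ [T, 2T]` such that for some `U` with `V ≤ U ≤ T` the mean value of
`|ζ(1/2 + is)|^(2k)` over the window `[t, t + U]` is less than `c (log T)^(k²)`.

* For every rational `k > 1` there are `c > 0` and `C` such that `Bad k c V T` has (outer) measure at most
  `T (log T)^C / V` for all large `T` and all `V ≥ 1`.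
* For an integer `k ≥ 2` this holds for every
  `c < 2^(-k²) a_k ((j/k)^(j²) (k/(k-j))^((k-j)²) (k²-j²)! / ((j²)! (2j(k-j))!) ∏_q ...)^(k/j)`
  whenever `1 ≤ j < k` and `1 - j/k` is a sum of unit fractions `1/q`, `q ≥ 2`.

So the windows of length `(log T)^B` and more have a `2k`-th moment of the full order `(log T)^(k²)` (not only
`(log log T)^(k²)`) for all `t ∈ [T, 2T]` outside a set of measure `T / (log T)^(B - C)`, and those of length
`T^δ` and more for all `t` outside a set of measure `T^(1-δ) (log T)^C`.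

Method: the lower bound of Rudnick and Soundararajan for the moments (in the form of the starting files, `masterN`)
is applied in each window `[τ - U, τ + U]`, weighted by a Gaussian; the three mean values over the window (of zeta
times a product of Dirichlet polynomials and of two Dirichlet polynomials, each of length less than `T^(1/2-δ)`) are
evaluated not for every `τ`, but in mean square over `τ ∈ [T, 3T]`: the off-diagonal terms of the window at `τ` form a
Dirichlet polynomial in `τ` of length less than `T^(1-2δ)` whose mean square over `[T, 3T]` is at most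
`T (log T)^C / U`.

Library theorems used as tools: `Pool.Agent.TH535` (the constants and `perturb`, the limits of the diagonal terms,
`window_holder_real`), `Pool.Agent.H306R2` (`aF`, Gaussian windows and the pointwise Hölder inequality).
-/

open Filter MeasureTheory Set

namespace Pool.Agent.Results.MP_112ba8_nt.AlmostAllWindows

noncomputable section

/-- The heights `t ∈ [T, 2T]` with a window `[t, t + U]`, `V ≤ U ≤ T`, over which the mean value of
`|ζ(1/2 + is)|^(2k)` is less than `c (log T)^(k²)`. -/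
def Bad (k c V T : ℝ) : Set ℝ :=
  {t : ℝ | t ∈ Icc T (2 * T) ∧ ∃ U : ℝ, V ≤ U ∧ U ≤ T ∧
    1 / U * ∫ s in t..(t + U), ‖riemannZeta (1 / 2 + s * Complex.I)‖ ^ (2 * k) <
      c * Real.log T ^ (k ^ 2)}

theorem of_master (κ c : ℝ) (h : ∃ C : ℕ, ∀ᶠ T : ℝ in atTop, ∀ V : ℝ, 1 ≤ V →
      volume {t : ℝ | t ∈ Set.Icc T (2 * T) ∧ ∃ U : ℝ, V ≤ U ∧ U ≤ T ∧
        ∫ s in t..(t + U), ‖riemannZeta (1 / 2 + s * Complex.I)‖ ^ (2 * κ) <
          c * Real.log T ^ (κ ^ 2) * U} ≤
      ENNReal.ofReal (T * Real.log T ^ C / V)) :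
    ∃ C : ℕ, ∀ᶠ T : ℝ in atTop, ∀ V : ℝ, 1 ≤ V →
      volume (Bad κ c V T) ≤ ENNReal.ofReal (T * Real.log T ^ C / V) := by
  obtain ⟨C, hC⟩ := h
  refine ⟨C, ?_⟩
  filter_upwards [hC] with T hT V hV
  refine (measure_mono ?_).trans (hT V hV)
  rintro t ⟨ht, U, h1, h2, h3⟩
  refine ⟨ht, U, h1, h2, ?_⟩
  have hU : 0 < U := by linarith
  rw [one_div, ← div_eq_inv_mul, div_lt_iff₀ hU] at h3
  exact h3

theorem result :
    (∀ k : ℚ, 1 < k → ∃ c : ℝ, 0 < c ∧ ∃ C : ℕ, ∀ᶠ T : ℝ in atTop, ∀ V : ℝ, 1 ≤ V →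
      volume (Bad k c V T) ≤ ENNReal.ofReal (T * Real.log T ^ C / V)) ∧
    (∀ (k j n : ℕ) (q : Fin n → ℕ), 1 ≤ j → j < k → (∀ a, 2 ≤ q a) →
      (j : ℝ) / k + ∑ a, 1 / (q a : ℝ) = 1 → ∀ c : ℝ,
      c < (1 / 2) ^ (k ^ 2) * ((∏' p : Nat.Primes, ((1 - 1 / (p : ℝ)) ^ (k ^ 2) *
        ∑' m : ℕ, ((m + k - 1).choose m : ℝ) ^ 2 * (1 / (p : ℝ)) ^ m)) *
      (((j : ℝ) / k) ^ (j ^ 2) * ((k : ℝ) / (k - j)) ^ ((k - j) ^ 2) *
          ((k ^ 2 - j ^ 2).factorial : ℝ) /
          (((j ^ 2).factorial : ℝ) * ((2 * j * (k - j)).factorial : ℝ)) *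
        ∏ a, (Real.Gamma (2 * j * k / q a + 1) ^ 2 * Real.Gamma (k ^ 2 / q a + 1) /
          ((q a : ℝ) ^ ((k : ℝ) ^ 2 / q a) * Real.Gamma (j * k / q a + 1) ^ 2 *
            Real.Gamma ((k + j) * k / q a + 1) ^ 2))) ^ ((k : ℝ) / j)) →
      ∃ C : ℕ, ∀ᶠ T : ℝ in atTop, ∀ V : ℝ, 1 ≤ V →
        volume (Bad k c V T) ≤ ENNReal.ofReal (T * Real.log T ^ C / V)) := by
  constructor
  · intro k hk
    have hd : 0 < k.den := k.den_pos
    have hnum : (k.den : ℤ) < k.num := by
      have h1 := Rat.num_div_den k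
      have h2 : (0 : ℚ) < k.den := by exact_mod_cast hd
      rw [← h1, lt_div_iff₀ h2, one_mul] at hk
      exact_mod_cast hk
    obtain ⟨r, hr⟩ := Int.eq_ofNat_of_zero_le (by omega : 0 ≤ k.num)
    have hrd : k.den < r := by omega
    have hk1 : (1 : ℝ) < (k : ℝ) := by exact_mod_cast hk
    have hkr : (k : ℝ) = (r : ℝ) / k.den := by
      have h1 := Rat.cast_def (K := ℝ) k
      rw [h1, hr]
      simp
    have hr0 : (0 : ℝ) < r := by exact_mod_cast (by omega : 0 < r)
    have hd0 : (0 : ℝ) < (k.den : ℝ) := by exact_mod_cast hd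
    have hA : Pool.Agent.TH535.AdmN (n := r - k.den) (k : ℝ) 1 (fun _ => r)
        (fun _ => 1 / (r : ℝ)) :=
      { hj := le_rfl
        hn := by omega
        hq := fun _ => by omega
        hsum := by
          rw [Finset.sum_const, Finset.card_univ, Fintype.card_fin, nsmul_eq_mul,
            Nat.cast_sub hrd.le, hkr]
          push_cast
          field_simp
          ring
        hβ := fun _ => by positivity
        hβq := fun _ => le_rfl }
    have hM : 0 < Pool.Agent.H306R2.aF (k : ℝ) *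
        Pool.Agent.TH535.MN (k : ℝ) 1 (fun _ : Fin (r - k.den) => r) (fun _ => 1 / (r : ℝ)) := by
      rw [Pool.Agent.TH535.MN_eq (by linarith) hA]
      exact mul_pos (Pool.Agent.H306R2.aF_pos (by linarith)) (Real.exp_pos _)
    set M := Pool.Agent.H306R2.aF (k : ℝ) *
        Pool.Agent.TH535.MN (k : ℝ) 1 (fun _ : Fin (r - k.den) => r) (fun _ => 1 / (r : ℝ)) with hMd
    have hM2 : 0 < M * (1 / 2) ^ ((k : ℝ) ^ 2) := by positivity
    refine ⟨M * (1 / 2) ^ ((k : ℝ) ^ 2) / 2, by positivity, ?_⟩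
    exact of_master _ _ (Pool.Agent.K1H84.MW.master (k : ℝ) (by linarith) 1 _ _ hA _
      (by rw [← hMd]; linarith))
  · intro k j n q hj hjk hq hsum c hc
    have hk1 : 1 ≤ k := by omega
    have hk0 : (0 : ℝ) < k := by exact_mod_cast hk1
    have hj0 : (0 : ℝ) < j := by exact_mod_cast hj
    have hn : 0 < n := by
      rcases Nat.eq_zero_or_pos n with h | h
      · subst h
        simp only [Finset.univ_eq_empty, Finset.sum_empty, add_zero] at hsum
        rw [div_eq_one_iff_eq hk0.ne'] at hsum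
        have : j = k := by exact_mod_cast hsum
        omega
      · exact h
    have hA : Pool.Agent.TH535.AdmN (k : ℝ) j q (fun a => 1 / (q a : ℝ)) :=
      { hj := hj
        hn := hn
        hq := hq
        hsum := hsum
        hβ := fun a => by
          have : (0 : ℝ) < q a := by exact_mod_cast (by have := hq a; omega : 0 < q a)
          positivity
        hβq := fun a => le_rfl }
    have hMN := Pool.Agent.TH535.MN_eq hk0 hA
    have hc' : c < Pool.Agent.H306R2.aF (k : ℝ) *
        Pool.Agent.TH535.MN (k : ℝ) j q (fun a => 1 / (q a : ℝ)) * (1 / 2) ^ ((k : ℝ) ^ 2) := by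
      have e2 : ((k : ℝ) ^ 2) = ((k ^ 2 : ℕ) : ℝ) := by push_cast; ring
      have e3 : (1 / 2 : ℝ) ^ ((k : ℝ) ^ 2) = (1 / 2) ^ (k ^ 2) := by
        rw [e2, Real.rpow_natCast]
      rw [e3, hMN, mul_comm ((k : ℝ) / j), Real.exp_mul, Pool.Agent.TH535.exp_LR q hj hjk hq,
        Pool.Agent.H306R2.aF_nat k hk1, mul_comm]
      exact hc
    exact of_master _ _ (Pool.Agent.K1H84.MW.master (k : ℝ) hk0 j q _ hA c hc')

end

end Pool.Agent.Results.MP_112ba8_nt.AlmostAllWindows
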