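import Pool.Agent.K1H51.DL.Asm0
import Pool.Agent.K1H19.DLV2.Fin

/-!
# The mean value of `∏ |ζ(1/2 + i α_j t)|²` for almost all `(α_1, ..., α_K)`, with a power saving

There is an absolute constant `δ > 0` such that for every number `K` of factors, every weight `F` with
`∫_0^T |F|² ≤ B T ^ (1 + δ)` (for example `F = 1`, the indicator function of any set, or `F(t) = |ζ(1/2 + it)|²`), and almost
every `α ∈ ℝ^K`,

`∫_0^T F(t) ∏_j |ζ(1/2 + i α_j t)|² dt = ∫_0^T F(t) ∏_j (log(|α_j| t / 2π) + 2γ) dt + O(T ^ (1 - δ))`.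

So for generic dilations the `2 K`-th moment of `ζ` has the full main term predicted by the recipe of Conrey, Farmer, Keating,
Rubinstein and Snaith, a polynomial in `log T`, with a power saving, for all `K`.

Method. The operator with kernel `|ζ(1/2 + iβt)|² - (log(βt/2π) + 2γ)`, `β ∈ [a, b]`, `t ∈ [T, 2T]`, is a convolution operator in
logarithmic coordinates, so that its norm on `L²` is at most the maximum over `y` of the twisted means
`∫ (|ζ(1/2 + iu)|² - log(u/2π) - 2γ) (u/T)^4 e^(-u/T) u^(-iy) du/u` (Plancherel). These are `O(T^(-δ))` uniformly in `y`: by the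
approximate functional equation this is a bound for the sums `∑ (mn)^(-1/2) (log(n/m))^(-iy)` over `m n ≤ T^(1+ε)`, `|y|` near `T`,
and follows from van der Corput's method for the phase `y log log(1 + h/m)`, `h = n - m`, for which the trivial bound is just
off by logarithms. The product of `K` factors is treated one factor at a time, the others being moved into the weight; the
passage to almost all `α` and all `T` is by Fubini's theorem.

The approximate functional equation for `|ζ|²`, the integral of `|ζ|²`, van der Corput's inequality for smooth phases, the bound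
for the Gamma function and Plancherel's theorem for `L¹ ∩ L²` are taken from the starting files.
-/

set_option autoImplicit false

open MeasureTheory

namespace Pool.Agent.Results.MP_112ba8_nt.GenericDilations

/-- There is `δ > 0` such that for all `K`, for all measurable `F` with `∫_0^T |F|² ≤ B T ^ (1 + δ)` for all `T ≥ 1`, and for
almost all `α ∈ ℝ^K`, the means over `[0, T]` of `F(t) ∏_j |ζ(1/2 + i α_j t)|²` and of `F(t) ∏_j (log(|α_j| t / 2π) + 2γ)` differ
by `O(T ^ (-δ))`. -/
theorem result : ∃ δ : ℝ, 0 < δ ∧ ∀ (K : ℕ) (F : ℝ → ℂ), Measurable F →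
    (∃ B : ℝ, ∀ T : ℝ, 1 ≤ T → IntegrableOn (fun t => ‖F t‖ ^ 2) (Set.Icc 0 T) ∧
      ∫ t in (0 : ℝ)..T, ‖F t‖ ^ 2 ≤ B * T ^ (1 + δ)) →
    ∀ᵐ α : Fin K → ℝ, ∃ C : ℝ, ∀ T : ℝ, 1 ≤ T →
      ‖(∫ t in (0 : ℝ)..T, F t *
          ((∏ j, ‖riemannZeta (1 / 2 + Complex.I * ((α j * t : ℝ) : ℂ))‖ ^ 2 : ℝ) : ℂ)) -
        ∫ t in (0 : ℝ)..T, F t *
          ((∏ j, (Real.log (|α j| * t / (2 * Real.pi)) + 2 * Real.eulerMascheroniConstant) : ℝ) : ℂ)‖ ≤
        C * T ^ (1 - δ) :=
  Pool.Agent.K1H19.DLV2.t_FIN Pool.Agent.K1H51.DL.t_VAR'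

end Pool.Agent.Results.MP_112ba8_nt.GenericDilations
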