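import Pool.Agent.K1H51.ZL.Prog

/-!
# Asymptotics of the mean of `∏ |ζ(1/2 + i L_j(x))|²` over boxes, for `K ≤ 2 d - 1` linear forms `L_j` in `d` variables

Let `L_1, ..., L_K` be real linear forms in `d` variables, any `d` of them linearly independent, `d ≤ K ≤ 2 d - 1`, and
let `[a, b]` be a box on which all of them are positive. Then, as `T → ∞`,

`∫_{T [a, b]} ∏_j |ζ(1/2 + i L_j(x))|² dx ~ C(A) vol [a, b] T ^ d (log T) ^ K`,

where `C(A) ≥ 1` is the sum, over all tuples of positive rationals `q_j = m_j / n_j` (in lowest terms) with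
`∑_j L_j ⊗ log q_j = 0`, of the `∏_j (m_j n_j) ^ (-1/2)`. This is the `2 K`-th moment of `ζ` with shifts, predicted by the recipe
of Conrey, Farmer, Keating, Rubinstein and Snaith, on average over the shifts: there are only `d - 1 ≥ (K - 1) / 2` parameters
of shifts beside the height. For instance (theorem `progressions` below) for `t`, `t + h`, `t + 2 h` with `T ≤ t, h ≤ 2 T` the mean
is `(5/2 + o(1)) (log T) ^ 3`.

Method: approximate functional equation for `|ζ|²` (from the starting files), freezing of its smooth amplitudes on cells of side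
`T ^ (1 - c)`, and then a bound for the sum over all `K`-tuples of reduced fractions: the spacing of the fractions of height
at most `X` and the general position show that the tuples with small frequencies have, after ordering the heights, enough
small coordinates. The error of the freezing is controlled by Cauchy-Schwarz over two sets of `d` forms each and mean squares.

The approximate functional equation, the coefficient estimates and the spacing lemma are theorems of the starting files
(`Pool.Agent.Y891.GP.t_AFE`, `Pool.Agent.Y587.GP`, `Pool.Agent.Y545.GP.t_CR`, `Pool.Agent.Y379.GP.t_SP`,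
`Pool.Agent.Y620.SX.t_CRA'`).
-/

set_option autoImplicit false

namespace Pool.Agent.Results.MP_112ba8_nt.LinearFormsMean

open MeasureTheory Filter Topology

/-- The tuples `q` of positive rationals with `∑ j, A j i * log (q j) = 0` for all `i`: the multiplicative relations attached
to the linear forms `x ↦ ∑ i, A j i * x i`. -/
def relations {K d : ℕ} (A : Fin K → Fin d → ℝ) : Set (Fin K → ℚ) :=
  {q | (∀ j, 0 < q j) ∧ ∀ i, ∑ j, A j i * Real.log (q j : ℝ) = 0}

/-- The product over `j` of `(m n) ^ (-1/2)`, where `q j = m / n` in lowest terms. -/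
noncomputable def weight {K : ℕ} (q : Fin K → ℚ) : ℝ := ∏ j, (√(((q j).num : ℝ) * ((q j).den : ℝ)))⁻¹

/-- The integral over the box `[T a, T b]` of the product over `j` of `|ζ(1/2 + i L_j(x))|²`, where `L_j(x) = ∑ i, A j i * x i`. -/
noncomputable def mean {K d : ℕ} (A : Fin K → Fin d → ℝ) (a b : Fin d → ℝ) (T : ℝ) : ℝ :=
  ∫ x in Set.Icc (fun i => T * a i) (fun i => T * b i),
    ∏ j, ‖riemannZeta (1 / 2 + Complex.I * ((∑ i, A j i * x i : ℝ) : ℂ))‖ ^ 2

/-- Let `d ≤ K ≤ 2 d - 1`, let every `d` of the `K` real linear forms be linearly independent and let all the forms be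
positive on the box `[a, b]`. Then the weights of the relations are summable, with sum at least `1`, and
`mean A a b T / (T ^ d (log T) ^ K)` tends to this sum times the volume of the box. -/
theorem result (d K : ℕ) (hd : 1 ≤ d) (hdK : d ≤ K) (hK : K ≤ 2 * d - 1) (A : Fin K → Fin d → ℝ)
    (hA : ∀ S : Finset (Fin K), S.card = d → LinearIndependent ℝ (fun j : S => A j)) (a b : Fin d → ℝ)
    (hab : ∀ i, a i < b i) (hpos : ∀ x ∈ Set.Icc a b, ∀ j, 0 < ∑ i, A j i * x i) :
    Summable (fun q : relations A => weight (q : Fin K → ℚ)) ∧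
    1 ≤ ∑' q : relations A, weight (q : Fin K → ℚ) ∧
    Tendsto (fun T : ℝ => mean A a b T / (T ^ d * Real.log T ^ K)) atTop
      (𝓝 ((∑' q : relations A, weight (q : Fin K → ℚ)) * ∏ i, (b i - a i))) :=
  ⟨Pool.Agent.K1H51.ZL.rel_summable hd hdK (by omega) hA, Pool.Agent.K1H51.ZL.rel_one hd hdK (by omega) hA,
    Pool.Agent.K1H51.ZL.main hd hdK (by omega) hA hab hpos⟩

/-- The case `t`, `t + h`, `t + 2 h`. -/
theorem progressions : Tendsto (fun T : ℝ => (∫ t in T..(2 * T), ∫ h in T..(2 * T),
      ‖riemannZeta (1 / 2 + Complex.I * (t : ℂ))‖ ^ 2 * ‖riemannZeta (1 / 2 + Complex.I * ((t + h : ℝ) : ℂ))‖ ^ 2 *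
        ‖riemannZeta (1 / 2 + Complex.I * ((t + 2 * h : ℝ) : ℂ))‖ ^ 2) / (T ^ 2 * Real.log T ^ 3)) atTop (𝓝 (5 / 2)) :=
  Pool.Agent.K1H51.ZL.prog

end Pool.Agent.Results.MP_112ba8_nt.LinearFormsMean
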