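import Pool.Agent.K1H48.SW.Fin2

set_option autoImplicit false

/-!
# The variance of short averages of shifted products of `|ζ(1/2 + it)|²`

For `k ≥ 2` shifts `c₁, …, c_k` in `[T, 2T]` and a window of length `U` we compare the short average of
`∏ⱼ |ζ(1/2 + i(cⱼ + t))|² / log T` with the product over the primes `p ≤ y` of the local averages
`σ_p(c) = ∫₀¹ ∏ⱼ (1 - 1/p) |1 - e(θ) p^(-1/2 - icⱼ)|⁻² dθ`, in mean square over the shifts, for every
`0 < U ≤ T`, and find the mean square asymptotically, with its constant.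

The modules of the starting library used as tools are `Y969.GP` (definitions), `Y587.GP.V`, `Y587.GP.Chi`,
`Y891.GP.AFE` (the approximate functional equation of `|ζ|²`), `Y379.GP.Sp` and `Y545.GP.CR`; everything about
the variance (`K1H48.SW.*`) is new.
-/

namespace Pool.Agent.Results.MP_112ba8_nt.ShortShiftVariance

open MeasureTheory Real

noncomputable section

/-- the local average `σ_p(c) = ∫₀¹ ∏ⱼ (1 - 1/p) / |1 - e(θ) p^(-1/2 - icⱼ)|² dθ` -/
def localMean {k : ℕ} (p : ℕ) (c : Fin k → ℝ) : ℝ :=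
  ∫ θ in (0 : ℝ)..1, ∏ j, (1 - 1 / (p : ℝ)) /
    ‖1 - Complex.exp (2 * π * Complex.I * θ) * (p : ℂ) ^ (-(1 / 2 : ℂ) - Complex.I * (c j : ℂ))‖ ^ 2

/-- the singular product `S_y(c) = ∏_{p ≤ y} σ_p(c)` -/
def singProd {k : ℕ} (y : ℕ) (c : Fin k → ℝ) : ℝ :=
  ∏ p ∈ (Finset.range (y + 1)).filter Nat.Prime, localMean p c

/-- the short average `F_U(c) = (1/U) ∫₀ᵁ ∏ⱼ |ζ(1/2 + i(cⱼ + t))|² dt / (log T)^k` -/
def shortMean {k : ℕ} (T U : ℝ) (c : Fin k → ℝ) : ℝ :=
  (1 / U) * (∫ t in (0 : ℝ)..U, ∏ j, ‖riemannZeta (1 / 2 + Complex.I * ((c j + t : ℝ) : ℂ))‖ ^ 2) / log T ^ k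

/-- the mean square of `F_U - S_y` over the shifts in `[T, 2T]^k` -/
def meanSquare (k y : ℕ) (T U : ℝ) : ℝ :=
  (1 / T ^ k) * ∫ c in {c : Fin k → ℝ | ∀ j, c j ∈ Set.Icc T (2 * T)}, (shortMean T U c - singProd y c) ^ 2

/-- the kernel `g(x) = (6/π²) (x² - 2 + 2 cos x)/x⁴`; its limit at `0` is Ingham's constant `1/(2π²)` -/
def kernel (x : ℝ) : ℝ := 6 / π ^ 2 * ((x ^ 2 - 2 + 2 * cos x) / x ^ 4)

/-- the main term `U⁻² ∫₀ᵁ ∫₀ᵁ (L² g(L(s - t)))^k ds dt` -/
def mainTerm (k : ℕ) (L U : ℝ) : ℝ :=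
  (1 / U ^ 2) * ∫ s in (0 : ℝ)..U, ∫ t in (0 : ℝ)..U, (L ^ 2 * kernel (L * (s - t))) ^ k

open K1H48.SW in
lemma localMean_eq {k : ℕ} {p : ℕ} (hp : p.Prime) (c : Fin k → ℝ) : localMean p c = sg p c := by
  have hp0 : (0 : ℝ) < p := by exact_mod_cast hp.pos
  have hpC : (p : ℂ) ≠ 0 := by exact_mod_cast hp.ne_zero
  unfold localMean sg
  have h1 : ∀ θ : ℝ, ∏ j, (1 - 1 / (p : ℝ)) /
      ‖1 - Complex.exp (2 * π * Complex.I * θ) * (p : ℂ) ^ (-(1 / 2 : ℂ) - Complex.I * (c j : ℂ))‖ ^ 2 =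
      ∏ j, Pk ((√(p : ℝ))⁻¹) (c j * Real.log (p : ℝ) + 2 * Real.pi * (1 - θ)) := by
    intro θ
    refine Finset.prod_congr rfl fun j _ => ?_
    unfold Pk
    have e1 : ((√(p : ℝ))⁻¹) ^ 2 = 1 / p := by
      rw [inv_pow, Real.sq_sqrt hp0.le, one_div]
    rw [e1]
    congr 2
    have e2 : (p : ℂ) ^ (-(1 / 2 : ℂ) - Complex.I * (c j : ℂ)) =
        (((√(p : ℝ))⁻¹ : ℝ) : ℂ) * Complex.exp (-(Complex.I * ((c j * Real.log p : ℝ) : ℂ))) := by
      rw [Complex.cpow_def_of_ne_zero hpC, mul_sub, Complex.exp_sub, Complex.exp_neg, div_eq_mul_inv]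
      have e3 : (((√(p : ℝ))⁻¹ : ℝ) : ℂ) = Complex.exp (Complex.log p * -(1 / 2)) := by
        have e4 : (√(p : ℝ))⁻¹ = Real.exp (Real.log p * (-(1 / 2))) := by
          rw [← Real.rpow_def_of_pos hp0, Real.rpow_neg hp0.le, Real.sqrt_eq_rpow]
        rw [e4, Complex.ofReal_exp]
        push_cast
        rfl
      rw [e3]
      congr 2
      push_cast
      ring_nf
    rw [e2]
    have e5 : 1 - ((((√(p : ℝ))⁻¹ : ℝ) : ℂ)) *
        Complex.exp (Complex.I * ((c j * Real.log (p : ℝ) + 2 * Real.pi * (1 - θ) : ℝ) : ℂ)) =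
        (starRingEnd ℂ) (1 - Complex.exp (2 * π * Complex.I * θ) * ((((√(p : ℝ))⁻¹ : ℝ) : ℂ) *
          Complex.exp (-(Complex.I * ((c j * Real.log p : ℝ) : ℂ))))) := by
      rw [map_sub, map_one, map_mul, map_mul, Complex.conj_ofReal, ← Complex.exp_conj, ← Complex.exp_conj]
      have e6 : (starRingEnd ℂ) (-(Complex.I * ((c j * Real.log p : ℝ) : ℂ))) =
          Complex.I * ((c j * Real.log p : ℝ) : ℂ) := by
        rw [map_neg, map_mul, Complex.conj_I, Complex.conj_ofReal]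
        ring
      have e7 : (starRingEnd ℂ) (2 * π * Complex.I * θ) = -(2 * π * Complex.I * θ) := by
        rw [map_mul, map_mul, map_mul, Complex.conj_I, Complex.conj_ofReal, Complex.conj_ofReal, map_ofNat]
        ring
      rw [e6, e7]
      have e8 : Complex.exp (Complex.I * ((c j * Real.log (p : ℝ) + 2 * Real.pi * (1 - θ) : ℝ) : ℂ)) =
          Complex.exp (-(2 * π * Complex.I * θ)) * Complex.exp (Complex.I * ((c j * Real.log p : ℝ) : ℂ)) := by
        have : Complex.I * ((c j * Real.log (p : ℝ) + 2 * Real.pi * (1 - θ) : ℝ) : ℂ) =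
            (-(2 * π * Complex.I * θ) + Complex.I * ((c j * Real.log p : ℝ) : ℂ)) + 2 * π * Complex.I := by
          push_cast; ring
        rw [this, Complex.exp_add, Complex.exp_add, Complex.exp_two_pi_mul_I, mul_one]
      rw [e8]
      ring
    rw [e5, Complex.norm_conj]
  simp_rw [h1]
  rw [intervalIntegral.integral_comp_sub_left
    (fun θ => ∏ j, Pk ((√(p : ℝ))⁻¹) (c j * Real.log (p : ℝ) + 2 * Real.pi * θ)) 1, sub_self, sub_zero]

open K1H48.SW in
lemma singProd_eq {k : ℕ} (y : ℕ) (c : Fin k → ℝ) : singProd y c = SP y c := by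
  unfold singProd SP Pr
  exact Finset.prod_congr rfl fun p hp => localMean_eq (Finset.mem_filter.1 hp).2 c

open K1H48.SW in
lemma shortMean_eq {k : ℕ} (T U : ℝ) (c : Fin k → ℝ) : shortMean T U c = FA T U c := by
  unfold shortMean FA Pool.Agent.Y969.GP.ff
  rw [one_div_mul_eq_div, div_div]

open K1H48.SW in
lemma meanSquare_eq (k y : ℕ) (T U : ℝ) : meanSquare k y T U =
    (∫ c : Fin k → ℝ, (FA T U c - SP y c) ^ 2 ∂(bm k T (2 * T))) / T ^ k := by
  unfold meanSquare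
  rw [one_div_mul_eq_div, bm_eq]
  congr 1
  have e : {c : Fin k → ℝ | ∀ j, c j ∈ Set.Icc T (2 * T)} = Set.univ.pi fun _ => Set.Icc T (2 * T) := by
    ext c
    simp only [Set.mem_ofPred_eq, Set.mem_pi, Set.mem_univ, true_implies]
  rw [e]
  congr 1
  funext c
  rw [shortMean_eq, singProd_eq]

open K1H48.SW in
lemma kernel_int (k : ℕ) : ∫ x : ℝ, kernel x ^ k = kc k := by
  unfold kc kap2
  rw [← integral_const_mul]
  congr 1
  funext x
  unfold kernel gk
  rw [mul_pow]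

open K1H48.SW in
lemma kernel_int_pos {k : ℕ} (hk : 2 ≤ k) : 0 < ∫ x : ℝ, kernel x ^ k := by
  rw [kernel_int]
  unfold kc kap2
  refine mul_pos (by positivity) ?_
  rw [integral_pos_iff_support_of_nonneg (fun x => pow_nonneg (gk_nonneg x) k) (gk_int hk)]
  have hsub : Set.Ioo (1 : ℝ) 2 ⊆ Function.support fun x => gk x ^ k := by
    intro x hx
    have hx0 : x ≠ 0 := by linarith [hx.1]
    have h1 := Real.one_sub_sq_div_two_lt_cos hx0
    have h2 : 0 < gk x := by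
      unfold gk
      apply div_pos (by linarith)
      have : 0 < x := by linarith [hx.1]
      positivity
    exact (pow_pos h2 k).ne'
  refine lt_of_lt_of_le ?_ (measure_mono hsub)
  rw [Real.volume_Ioo]
  norm_num

open K1H48.SW in
lemma mainTerm_eq (k : ℕ) {L U : ℝ} (hL : 0 < L) (hU : 0 < U) : mainTerm k L U = pm k L U := by
  unfold mainTerm pm
  have hc : Continuous (Function.uncurry fun t t' : ℝ => Hh L (t - t') ^ k) :=
    ((Hh_cont L).comp (by fun_prop : Continuous fun z : ℝ × ℝ => z.1 - z.2)).pow k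
  have h := I2_eq hU.le hc
  have e : (fun z : ℝ × ℝ => Hh L (z.1 - z.2) ^ k) = Function.uncurry fun t t' : ℝ => Hh L (t - t') ^ k := by
    funext z; rfl
  rw [e, ← h]
  have h2 : ∀ s : ℝ, ∫ t in (0 : ℝ)..U, (L ^ 2 * kernel (L * (s - t))) ^ k =
      ∫ t in (0 : ℝ)..U, (6 / π ^ 2) ^ k / L ^ (2 * k) * Hh L (s - t) ^ k := by
    intro s
    apply intervalIntegral.integral_congr_ae
    have : ∀ᵐ x : ℝ ∂volume, x ≠ s := by
      rw [ae_iff]
      simp
    filter_upwards [this] with t ht _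
    have hne : s - t ≠ 0 := sub_ne_zero.2 (Ne.symm ht)
    rw [gk_Hh hL hne, pow_mul, ← div_pow, ← mul_pow]
    congr 1
    unfold kernel gk
    field_simp
  simp_rw [h2]
  simp_rw [intervalIntegral.integral_const_mul]
  field_simp

/-- **The variance of the short averages of the shifted moments.** -/
theorem result (k : ℕ) (hk : 2 ≤ k) : 0 < (∫ x : ℝ, kernel x ^ k) ∧ ∀ ε : ℝ, 0 < ε →
    ∃ y₀ : ℕ, ∀ y : ℕ, y₀ ≤ y → ∃ T₀ : ℝ, ∀ T : ℝ, T₀ ≤ T → ∀ U : ℝ, 0 < U → U ≤ T →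
      |meanSquare k y T U - mainTerm k (log T) U| ≤ ε * (1 + log T ^ (2 * k) / (1 + U * log T)) ∧
      |mainTerm k (log T) U - (∫ x : ℝ, kernel x ^ k) * log T ^ (2 * k - 1) / U| ≤
        2 * 4 ^ k * log T ^ (2 * k - 2) / U ^ 2 := by
  refine ⟨kernel_int_pos hk, fun ε hε => ?_⟩
  obtain ⟨y₀, h⟩ := K1H48.SW.variance hk hε
  refine ⟨y₀, fun y hy => ?_⟩
  obtain ⟨T₀, hT₀, h1⟩ := h y hy
  refine ⟨T₀, fun T hT U hU hUT => ?_⟩
  have hT1 : 1 < T := by linarith
  have hL : 0 < log T := Real.log_pos hT1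
  rw [meanSquare_eq, mainTerm_eq k hL hU, kernel_int]
  refine ⟨h1 T hT U hU hUT, ?_⟩
  have h2 := K1H48.SW.pm_long hk hL hU
  rw [mul_div_assoc, mul_div_assoc]
  exact h2

end

end Pool.Agent.Results.MP_112ba8_nt.ShortShiftVariance
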